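import Pool.Agent.helper67.TPC.Spec

/-!
# Project tpc, row CNT: counting pairs
-/

set_option autoImplicit false

open Finset

namespace Pool.Agent.TPC

open Pool.Agent.EP

theorem CNT_bound (s Q y M p n : ℕ) (hy : 1 ≤ y) (hQ : 1 ≤ Q) (hM : M ≤ 2 * y) (hp : p ≤ 2 * y)
    (hR : Rel s Q M p n) : n ≤ Q * y ^ 2 := by
  have hQy : 1 ≤ Q * y ^ 2 := Nat.mul_pos hQ (by positivity)
  have h0 : Q * (2 * y) * (2 * y) = 4 * (Q * y ^ 2) := by ring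
  rcases hR with ⟨u, h1, h2⟩ | ⟨u, h1, h2⟩
  · have h3 : Q * p * (M - 2 ^ s * u ^ 2) ≤ Q * (2 * y) * (2 * y) :=
      Nat.mul_le_mul (Nat.mul_le_mul_left _ hp) ((Nat.sub_le _ _).trans hM)
    omega
  · have h3 : (Q * p - 2 ^ s * u ^ 2) * M ≤ Q * (2 * y) * (2 * y) :=
      Nat.mul_le_mul ((Nat.sub_le _ _).trans (Nat.mul_le_mul_left _ hp)) hM
    omega

/-- **CNT** -/
theorem CNT (hKEY : KEY_stmt) (hEXC : EXC_stmt) (hMUL : MUL_stmt) : CNT_stmt := by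
  classical
  intro i a r s Q m μ κ D g h hD y hy
  have hQ := hD.Q1
  have hy1 : 1 ≤ y := by omega
  have hsub : {x ∈ Pq m μ y ×ˢ Pq m κ y | (∑ u ∈ uB s x.1, g u) + (∑ u ∈ uB s (Q * x.2), h u) ≠ 0} ⊆
      ({n ∈ range (Q * y ^ 2 + 1) | n % 2 ^ i = a % 2 ^ i ∧ pp n ≠ r n}.biUnion
        fun n => {x ∈ Pq m μ y ×ˢ Pq m κ y | Rel s Q x.1 x.2 n}) ∪
      {x ∈ Pq m μ y ×ˢ Pq m κ y | Exc s Q x.1 x.2} := by
    intro x hx
    obtain ⟨hx1, hx2⟩ := mem_filter.1 hx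
    by_cases hex : Exc s Q x.1 x.2
    · exact mem_union_right _ (mem_filter.2 ⟨hx1, hex⟩)
    · refine mem_union_left _ ?_
      obtain ⟨hM, hp⟩ := mem_product.1 hx1
      unfold Pq at hM hp
      obtain ⟨hM1, hM2, hM3⟩ := mem_filter.1 hM
      obtain ⟨hp1, hp2, hp3⟩ := mem_filter.1 hp
      obtain ⟨n, hn1, hn2, hn3⟩ := hKEY i a r s Q m μ κ D g h hD x.1 x.2 hM2 hp2 hM3 hp3 hex hx2
      refine mem_biUnion.2 ⟨n, mem_filter.2 ⟨mem_range.2 ?_, hn1, hn2⟩, mem_filter.2 ⟨hx1, hn3⟩⟩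
      have := CNT_bound s Q y x.1 x.2 n hy1 hQ (mem_Ioc.1 hM1).2 (mem_Ioc.1 hp1).2 hn3
      omega
  have h1 := card_le_card hsub
  have h2 := card_union_le
    ({n ∈ range (Q * y ^ 2 + 1) | n % 2 ^ i = a % 2 ^ i ∧ pp n ≠ r n}.biUnion
        fun n => {x ∈ Pq m μ y ×ˢ Pq m κ y | Rel s Q x.1 x.2 n})
    {x ∈ Pq m μ y ×ˢ Pq m κ y | Exc s Q x.1 x.2}
  have h3 : #({n ∈ range (Q * y ^ 2 + 1) | n % 2 ^ i = a % 2 ^ i ∧ pp n ≠ r n}.biUnion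
        fun n => {x ∈ Pq m μ y ×ˢ Pq m κ y | Rel s Q x.1 x.2 n}) ≤
      4 * (Nat.sqrt (2 * Q * y) + 1) * sD i a r (Q * y ^ 2) := by
    refine (card_biUnion_le).trans ?_
    refine (sum_le_card_nsmul _ _ (4 * (Nat.sqrt (2 * Q * y) + 1)) (fun n _ => ?_)).trans ?_
    · refine le_trans (le_of_eq ?_) (hMUL s Q m μ κ y n hQ hy)
      exact congrArg card (filter_congr_decidable _ _ _)
    · unfold sD
      simp only [smul_eq_mul]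
      rw [mul_comm]
  have h4 : #{x ∈ Pq m μ y ×ˢ Pq m κ y | Exc s Q x.1 x.2} ≤
      (2 * Q + 2) * (Nat.sqrt (4 * Q * y) + 1) * #(Pq m κ y) := by
    refine le_trans (le_of_eq ?_) (hEXC s Q m μ κ y hQ)
    exact congrArg card (filter_congr_decidable _ _ _)
  calc _ ≤ _ := h1
    _ ≤ _ := h2
    _ ≤ _ := Nat.add_le_add h3 h4

end Pool.Agent.TPC
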