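import Pool.Agent.helper67.TPC.Spec

/-!
# Project tpc, row FLP: the sums of a periodic function take both values
-/

set_option autoImplicit false

open Finset

namespace Pool.Agent.TPC

open Pool.Agent.EP

theorem FLP_sum (s M : ℕ) (g : ℕ → ZMod 2) (g0 : ∀ u, ¬ u.Coprime 6 → g u = 0) :
    ∑ u ∈ uB s M, g u = ∑ u ∈ range (Nat.sqrt (M / 2 ^ s) + 1), g u := by
  have h2 : 0 < 2 ^ s := by positivity
  have hiff : ∀ u : ℕ, u ≤ Nat.sqrt (M / 2 ^ s) ↔ 2 ^ s * u ^ 2 ≤ M := by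
    intro u
    rw [Nat.le_sqrt', Nat.le_div_iff_mul_le h2, mul_comm]
  refine sum_subset ?_ ?_
  · intro u hu
    unfold uB at hu
    rw [mem_filter] at hu
    rw [mem_range, Nat.lt_succ_iff]
    exact (hiff u).2 hu.2.2
  · intro u hu hu'
    rw [mem_range, Nat.lt_succ_iff, hiff] at hu
    apply g0
    intro hc
    apply hu'
    unfold uB
    rw [mem_filter, mem_range, Nat.lt_succ_iff]
    refine ⟨?_, hc, hu⟩
    calc u ≤ u ^ 2 := Nat.le_self_pow (by norm_num) u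
      _ = 1 * u ^ 2 := (one_mul _).symm
      _ ≤ 2 ^ s * u ^ 2 := Nat.mul_le_mul_right _ h2
      _ ≤ M := hu

/-- **FLP** -/
theorem FLP (hPAR : PAR_stmt) (hWAP : WAP_stmt) : FLP_stmt := by
  intro s m μ D g hm hμ hD hg g0 g1
  have key : ∀ e : ZMod 2, ∃ c₀ : ℝ, 0 < c₀ ∧ ∃ x₀ : ℕ, ∀ x : ℕ, x₀ ≤ x →
      c₀ * x / Real.log x ≤ (#{M ∈ Pq m μ x | ∑ u ∈ uB s M, g u = e} : ℝ) := by
    intro e
    obtain ⟨c, hc⟩ := hPAR D g hD hg g1 e
    obtain ⟨c₀, hc₀, x₀, h⟩ := hWAP m μ (2 ^ s) (2 * D) c hm hμ (by positivity) (by omega)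
    refine ⟨c₀, hc₀, x₀, fun x hx => (h x hx).trans ?_⟩
    rw [Nat.cast_le]
    refine card_le_card fun M hM => ?_
    rw [mem_filter] at hM
    unfold Pq
    rw [mem_filter, mem_filter]
    refine ⟨⟨hM.1, hM.2.1, hM.2.2.1⟩, ?_⟩
    rw [FLP_sum s M g g0]
    exact hc _ hM.2.2.2
  obtain ⟨c₀, hc₀, x₀, h0⟩ := key 0
  obtain ⟨c₁, hc₁, x₁, h1⟩ := key 1
  refine ⟨min c₀ c₁, lt_min hc₀ hc₁, max (max x₀ x₁) 1, fun x hx e => ?_⟩
  have hx1 : 1 ≤ x := (le_max_right _ _).trans hx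
  have hl : 0 ≤ Real.log x := Real.log_natCast_nonneg x
  have hx0 : (0 : ℝ) ≤ x := Nat.cast_nonneg x
  have he : e = 0 ∨ e = 1 := by
    revert e
    decide
  rcases he with rfl | rfl
  · refine le_trans ?_ (h0 x (((le_max_left _ _).trans (le_max_left _ _)).trans hx))
    refine div_le_div_of_nonneg_right ?_ hl
    exact mul_le_mul_of_nonneg_right (min_le_left _ _) hx0
  · refine le_trans ?_ (h1 x (((le_max_right _ _).trans (le_max_left _ _)).trans hx))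
    refine div_le_div_of_nonneg_right ?_ hl
    exact mul_le_mul_of_nonneg_right (min_le_right _ _) hx0

end Pool.Agent.TPC
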