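import Pool.Agent.helper67.TPC.SpecW

/-!
# Project tpc, row WAP: primes in windows
-/

set_option autoImplicit false

open Finset

namespace Pool.Agent.TPC

open Pool.Agent.EP

/-- **WAP** -/
theorem WAP (hW1 : W1_stmt) (hW2 : W2_stmt) : WAP_stmt := by
  intro m μ B D c hm hμ hB hD
  obtain ⟨δ, hδ, x₁, h1⟩ := hW2 B D c hB hD
  obtain ⟨x₂, h2⟩ := hW1 m μ hm hμ δ hδ
  have hm' : (0 : ℝ) < m := by exact_mod_cast hm
  refine ⟨δ / (2 * m), by positivity, max x₁ x₂, fun x hx => ?_⟩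
  obtain ⟨K, hK, hK', I, hI, hI', hI''⟩ := h1 x ((le_max_left _ _).trans hx)
  have h3 := h2 x ((le_max_right _ _).trans hx) K hK hK' I hI hI'
  refine h3.trans ?_
  rw [Nat.cast_le]
  refine card_le_card fun M hM => ?_
  rw [mem_filter] at hM ⊢
  obtain ⟨hM1, hM2, hM3, i, hi, hMi⟩ := hM
  exact ⟨hM1, hM2, hM3, hI'' i hi M hMi⟩

end Pool.Agent.TPC
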